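import Pool.Agent.helper18.KU.Spec

set_option autoImplicit false

namespace Pool.Agent.KU

open Finset

noncomputable section

def T3_h1 : Fin 3 → ZMod 3 → Option (Fin 3) :=
  ![![none, some 1, some 1], ![none, some 2, some 2], ![some 0, none, none]]

def T3_h2 : Fin 3 → ZMod 3 → Option (Fin 3) :=
  ![![none, some 1, some 1], ![none, none, some 2], ![some 0, some 1, none]]

def T3_r : Fin 3 → ℕ := ![0, 2, 1]

theorem T3_gen (hCHK : CHK_stmt) (hTRN : TRN_stmt) (hEXS : EXS_stmt) (V : Type) [DecidableEq V] (X : V → ℕ)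
    (w : V → V → ℕ) (v a b : V) (hva : v ≠ a) (hvb : v ≠ b) (hab : a ≠ b)
    (hh : Fin 3 → ZMod 3 → Option (Fin 3)) (r : Fin 3 → ℕ)
    (h1 : ∀ i, r i < 3) (h2 : Function.Injective r) (h3 : ∀ i k, hh i k ≠ some i)
    (h4 : ∀ (j : Fin (3 * 3)) (i : Fin 3), it (fun i => hh i ((((j : ℕ) : ℤ) - r i) / (3 : ℕ) : ℤ)) 3 (some i) = none)
    (h5 : ∀ i, (univ.filter fun k => hh i k = none).card = X (![v, a, b] i))
    (h6 : ∀ i j, i ≠ j → (univ.filter fun k => hh i k = some j).card + (univ.filter fun k => hh j k = some i).card =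
      w (![v, a, b] i) (![v, a, b] j)) : St {v, a, b} X w := by
  have hinj : Function.Injective (![v, a, b] : Fin 3 → V) := by
    intro i j hij
    fin_cases i <;> fin_cases j <;> simp_all
  have himg : (univ.image (![v, a, b] : Fin 3 → V)) = {v, a, b} := by
    ext u
    simp [Fin.exists_fin_succ, eq_comm]
  rw [← himg]
  apply hTRN 3 V _ X w hinj
  refine (hEXS (Fin 3) univ _ _ _ _ ?_ ?_).1 (hCHK 3 (by norm_num) hh r h1 h2 h3 h4)
  · intro i _
    exact h5 i
  · intro i _ j _ hij
    exact h6 i j hij

theorem T3 (hCHK : CHK_stmt) (hTRN : TRN_stmt) (hEXS : EXS_stmt) : T3_stmt := by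
  intro V _ X w v a b hs hva hvb hab h1 h2 h3 h4 h5
  have h1' := hs.symm v a
  have h2' := hs.symm v b
  have h3' := hs.symm a b
  rcases h5 with ⟨h5, h6⟩ | ⟨h5, h6⟩
  · refine T3_gen hCHK hTRN hEXS V X w v a b hva hvb hab T3_h1 T3_r (by decide) (by decide) (by decide) (by decide) ?_ ?_
    · intro i
      fin_cases i
      · exact (show (univ.filter fun k => T3_h1 0 k = none).card = 1 by decide).trans h4.symm
      · exact (show (univ.filter fun k => T3_h1 1 k = none).card = 1 by decide).trans h5.symm
      · exact (show (univ.filter fun k => T3_h1 2 k = none).card = 2 by decide).trans h6.symm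
    · have key : ∀ i j : Fin 3, i ≠ j → (univ.filter fun k => T3_h1 i k = some j).card +
          (univ.filter fun k => T3_h1 j k = some i).card = ![![0, 2, 1], ![2, 0, 2], ![1, 2, 0]] i j := by decide
      intro i j hij
      rw [key i j hij]
      fin_cases i <;> fin_cases j <;> simp_all
  · refine T3_gen hCHK hTRN hEXS V X w v a b hva hvb hab T3_h2 T3_r (by decide) (by decide) (by decide) (by decide) ?_ ?_
    · intro i
      fin_cases i
      · exact (show (univ.filter fun k => T3_h2 0 k = none).card = 1 by decide).trans h4.symm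
      · exact (show (univ.filter fun k => T3_h2 1 k = none).card = 2 by decide).trans h5.symm
      · exact (show (univ.filter fun k => T3_h2 2 k = none).card = 1 by decide).trans h6.symm
    · have key : ∀ i j : Fin 3, i ≠ j → (univ.filter fun k => T3_h2 i k = some j).card +
          (univ.filter fun k => T3_h2 j k = some i).card = ![![0, 2, 1], ![2, 0, 2], ![1, 2, 0]] i j := by decide
      intro i j hij
      rw [key i j hij]
      fin_cases i <;> fin_cases j <;> simp_all

end

end Pool.Agent.KU
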