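import Pool.Agent.helper18.KU.Spec

set_option autoImplicit false

namespace Pool.Agent.KU

open Finset

noncomputable section

/-- transported pointers -/
def TRN_h {m : ℕ} {V : Type} (e : Fin m → V) (g : V → Option (Fin m)) (h : Fin m → ZMod 3 → Option (Fin m)) :
    V → ZMod 3 → Option V := fun v k => (g v).bind fun i => (h i k).map e

theorem TRN : TRN_stmt := by
  intro m V _ e X w he hst
  obtain ⟨h, φ, hS⟩ := hst
  have hg0 := Function.Injective.isPartialInv he
  obtain ⟨g, hg⟩ : ∃ g : V → Option (Fin m), ∀ i, g (e i) = some i :=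
    ⟨Function.partialInv e, fun i => (hg0 i (e i)).2 rfl⟩
  have hk : ∀ i k, TRN_h e g h (e i) k = (h i k).map e := by
    intro i k
    simp [TRN_h, hg]
  have hnone : ∀ i k, TRN_h e g h (e i) k = none ↔ h i k = none := by
    intro i k
    rw [hk, Option.map_eq_none_iff]
  have hsome : ∀ i k j, TRN_h e g h (e i) k = some (e j) ↔ h i k = some j := by
    intro i k j
    rw [hk, Option.map_eq_some_iff]
    constructor
    · rintro ⟨a, ha, hb⟩
      rw [ha, he hb]
    · intro ha
      exact ⟨j, ha, rfl⟩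
  refine ⟨TRN_h e g h, fun v => (g v).elim 0 φ, ?_, ?_, ?_, ?_, ?_⟩
  · intro v hv k u hu
    obtain ⟨i, -, rfl⟩ := mem_image.1 hv
    rw [hk, Option.map_eq_some_iff] at hu
    obtain ⟨j, hj, rfl⟩ := hu
    exact ⟨mem_image_of_mem e (mem_univ j), fun hc => (hS.mem i (mem_univ i) k j hj).2 (he hc)⟩
  · intro v hv
    obtain ⟨i, -, rfl⟩ := mem_image.1 hv
    rw [← hS.cX i (mem_univ i)]
    simp only [hnone]
  · intro u hu v hv huv
    obtain ⟨i, -, rfl⟩ := mem_image.1 hu
    obtain ⟨j, -, rfl⟩ := mem_image.1 hv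
    have hij : i ≠ j := fun hc => huv (by rw [hc])
    rw [← hS.cw i (mem_univ i) j (mem_univ j) hij]
    simp only [hsome]
  · intro u hu v hv huv n
    obtain ⟨i, -, rfl⟩ := mem_image.1 hu
    obtain ⟨j, -, rfl⟩ := mem_image.1 hv
    have hij : i ≠ j := fun hc => huv (by rw [hc])
    simp only [hg, Option.elim_some]
    exact hS.dist i (mem_univ i) j (mem_univ j) hij n
  · intro t
    obtain ⟨ρ, hρ⟩ := hS.ac t
    refine ⟨fun v => (g v).elim 0 ρ, ?_⟩
    intro v hv u hu
    obtain ⟨i, -, rfl⟩ := mem_image.1 hv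
    simp only [ptr, hg, Option.elim_some] at hu
    rw [hk, Option.map_eq_some_iff] at hu
    obtain ⟨j, hj, rfl⟩ := hu
    simp only [hg, Option.elim_some]
    exact hρ i (mem_univ i) j hj

end

end Pool.Agent.KU
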